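import Mathlib

/-!
# Ideal achievement sets with the Baire property are meager or comeager

Let `x` be a real sequence with convergent sum, `K = A(x)` its achievement set and `I` an ideal
of subsets of `ℕ` containing all finite sets. If `A_I(x)` has the Baire property in `K`, then
`A_I(x)` is meager or comeager in `K`.

Proof. Otherwise there are nonempty relatively open sets `U`, `V` of `K` such that `A_I(x)` is
comeager in `U` and meager in `V`. If every nonempty relatively open set of `K` contains a
nonempty open interval of `ℝ` (this happens if the series converges conditionally or `K` has an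
interior point), then `A_I(x)` is contained in the union of countably many translates of
`A_I(x) ∩ J`, `J ⊆ V` an interval, so `A_I(x)` is meager in `ℝ`, contrary to the choice of `U`.
Otherwise the series converges absolutely and `K` has no interior point. Then `U` and `V` contain
points `g` and `g'` of `K` that are right end points of gaps. The pairs `(K, A_I(x))` look the same
to the right of `g` and to the right of `g'`, a contradiction with the Baire category theorem.
-/

set_option autoImplicit false

open Filter Topology Set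

namespace Pool.Agent.Results.MP_dc2775_an.Category

/-- The subseries `∑_{n ∈ A} x n` converges with sum `t`. -/
def SumsTo (x : ℕ → ℝ) (A : Set ℕ) (t : ℝ) : Prop :=
  Tendsto (fun N => ∑ n ∈ Finset.range N, A.indicator x n) atTop (𝓝 t)

/-- Ideals of subsets of `ℕ` containing all finite sets, `ℕ` itself not being a member. -/
structure IsIdeal (I : Set (Set ℕ)) : Prop where
  subset : ∀ A B : Set ℕ, A ∈ I → B ⊆ A → B ∈ I
  union : ∀ A B : Set ℕ, A ∈ I → B ∈ I → A ∪ B ∈ I
  univ_notMem : (univ : Set ℕ) ∉ I
  finite : ∀ A : Set ℕ, A.Finite → A ∈ I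

/-- The achievement set `A(x)`. -/
def achievementSet (x : ℕ → ℝ) : Set ℝ := {t | ∃ A : Set ℕ, SumsTo x A t}

/-- The ideal achievement set `A_I(x)`. -/
def idealAchievementSet (I : Set (Set ℕ)) (x : ℕ → ℝ) : Set ℝ := {t | ∃ A ∈ I, SumsTo x A t}

/-- The Baire property: `G` is the symmetric difference of an open set and a meager set. -/
def HasBaireProperty {X : Type*} [TopologicalSpace X] (G : Set X) : Prop :=
  ∃ U : Set X, IsOpen U ∧ IsMeagre (symmDiff G U)

variable {x : ℕ → ℝ} {I : Set (Set ℕ)}

/-- the partial sum -/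
noncomputable def ps (x : ℕ → ℝ) (A : Set ℕ) (N : ℕ) : ℝ := ∑ n ∈ Finset.range N, A.indicator x n

/-- `B` before `N`, `A` from `N` on -/
def glue (B A : Set ℕ) (N : ℕ) : Set ℕ := {n | (n < N ∧ n ∈ B) ∨ (N ≤ n ∧ n ∈ A)}

theorem ps_glue_le (A B : Set ℕ) (N : ℕ) {M : ℕ} (hM : M ≤ N) : ps x (glue B A N) M = ps x B M := by
  classical
  unfold ps
  refine Finset.sum_congr rfl fun n hn => ?_
  have hn : n < M := Finset.mem_range.1 hn
  have h1 : n ∈ glue B A N ↔ n ∈ B := by
    simp only [glue, mem_ofPred_eq]
    constructor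
    · rintro (h | h)
      · exact h.2
      · omega
    · intro h
      exact Or.inl ⟨by omega, h⟩
  by_cases h : n ∈ B
  · rw [indicator_of_mem h, indicator_of_mem (h1.2 h)]
  · rw [indicator_of_notMem h, indicator_of_notMem (fun h' => h (h1.1 h'))]

theorem ps_glue_ge (A B : Set ℕ) (N : ℕ) {M : ℕ} (hM : N ≤ M) :
    ps x (glue B A N) M = ps x A M - ps x A N + ps x B N := by
  classical
  induction M, hM using Nat.le_induction with
  | base =>
    rw [ps_glue_le A B N le_rfl]
    ring
  | succ M hM ih =>
    have h0 : ∀ C : Set ℕ, ps x C (M + 1) = ps x C M + C.indicator x M := fun C => by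
      unfold ps
      rw [Finset.sum_range_succ]
    rw [h0, h0, ih]
    have h1 : M ∈ glue B A N ↔ M ∈ A := by
      simp only [glue, mem_ofPred_eq]
      constructor
      · rintro (h | h)
        · omega
        · exact h.2
      · intro h
        exact Or.inr ⟨by omega, h⟩
    by_cases h : M ∈ A
    · rw [indicator_of_mem h, indicator_of_mem (h1.2 h)]
      ring
    · rw [indicator_of_notMem h, indicator_of_notMem (fun h' => h (h1.1 h'))]
      ring

theorem sumsTo_glue {A : Set ℕ} {t : ℝ} (h : SumsTo x A t) (B : Set ℕ) (N : ℕ) :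
    SumsTo x (glue B A N) (t - ps x A N + ps x B N) := by
  have h1 : Tendsto (fun M => ps x A M - ps x A N + ps x B N) atTop
      (𝓝 (t - ps x A N + ps x B N)) := (Tendsto.sub_const h _).add_const _
  refine h1.congr' ?_
  filter_upwards [eventually_ge_atTop N] with M hM
  exact (ps_glue_ge A B N hM).symm

theorem glue_mem (hI : IsIdeal I) {A : Set ℕ} (hA : A ∈ I) (B : Set ℕ) (N : ℕ) :
    glue B A N ∈ I := by
  have h1 : {n | n < N} ∪ A ∈ I := hI.union _ _ (hI.finite _ (Set.finite_lt_nat N)) hA
  refine hI.subset _ _ h1 ?_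
  rintro n (h | h)
  · exact Or.inl h.1
  · exact Or.inr h.2

/-! ### category -/

/-- transport of meager sets to `ℝ` -/
theorem meagre_real {K : Set ℝ} {S : Set K} (hS : IsMeagre S) {J : Set ℝ} (hJ : IsOpen J)
    (hJK : J ⊆ K) : IsMeagre {r : ℝ | ∃ hr : r ∈ J, (⟨r, hJK hr⟩ : K) ∈ S} := by
  let f : J → K := fun r => ⟨r.1, hJK r.2⟩
  have hf : Continuous f := by
    exact Continuous.subtype_mk continuous_subtype_val _
  have hfo : IsOpenMap f := by
    intro O hO
    obtain ⟨O', hO', rfl⟩ := isOpen_induced_iff.1 hO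
    refine isOpen_induced_iff.2 ⟨O' ∩ J, hO'.inter hJ, ?_⟩
    ext k
    simp only [mem_preimage, mem_inter_iff, mem_image, Subtype.exists]
    constructor
    · rintro ⟨h1, h2⟩
      exact ⟨k.1, h2, h1, rfl⟩
    · rintro ⟨a, ha, h1, rfl⟩
      exact ⟨h1, ha⟩
  have h1 : IsMeagre (f ⁻¹' S) := hS.preimage_of_isOpenMap hf hfo
  have h2 := h1.image_val
  refine h2.mono ?_
  rintro r ⟨hr, h⟩
  exact ⟨⟨r, hr⟩, h, rfl⟩

/-- Case 1: all nonempty relatively open sets contain intervals. -/
theorem case_fat (hI : IsIdeal I)
    (hfat : ∀ V : Set (achievementSet x), IsOpen V → V.Nonempty →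
      ∃ J : Set ℝ, IsOpen J ∧ J.Nonempty ∧ ∃ hJ : J ⊆ achievementSet x,
        ∀ r (hr : r ∈ J), (⟨r, hJ hr⟩ : achievementSet x) ∈ V)
    {U V : Set (achievementSet x)} (hU : IsOpen U) (hUn : U.Nonempty) (hV : IsOpen V)
    (hVn : V.Nonempty)
    (hUG : IsMeagre (U \ {k : achievementSet x | (k : ℝ) ∈ idealAchievementSet I x}))
    (hVG : IsMeagre (V ∩ {k : achievementSet x | (k : ℝ) ∈ idealAchievementSet I x})) :
    False := by
  classical
  obtain ⟨J, hJo, hJn, hJK, hJV⟩ := hfat V hV hVn
  obtain ⟨J', hJo', hJn', hJK', hJU⟩ := hfat U hU hUn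
  have h1 : IsMeagre (J ∩ idealAchievementSet I x) := by
    refine (meagre_real hVG hJo hJK).mono ?_
    rintro r ⟨hr, hr'⟩
    exact ⟨hr, hJV r hr, hr'⟩
  have h2 : IsMeagre (J' \ idealAchievementSet I x) := by
    refine (meagre_real hUG hJo' hJK').mono ?_
    rintro r ⟨hr, hr'⟩
    exact ⟨hr, hJU r hr, hr'⟩
  have h3 : IsMeagre (idealAchievementSet I x) := by
    have h4 : idealAchievementSet I x ⊆ ⋃ p : Finset ℕ × Finset ℕ,
        (fun t : ℝ => t + (∑ n ∈ p.2, x n - ∑ n ∈ p.1, x n)) ⁻¹'
          (J ∩ idealAchievementSet I x) := by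
      rintro t ⟨A, hA, ht⟩
      obtain ⟨v, hv⟩ := hJn
      obtain ⟨B, hB⟩ := hJK hv
      have h5 : Tendsto (fun N => t - ps x A N + ps x B N) atTop (𝓝 (t - t + v)) :=
        (tendsto_const_nhds.sub ht).add hB
      have h6 : t - t + v ∈ J := by simpa using hv
      obtain ⟨N, hN⟩ := (h5.eventually (hJo.mem_nhds h6)).exists
      have h7 : ∀ C : Set ℕ, ps x C N = ∑ n ∈ (Finset.range N).filter (· ∈ C), x n := by
        intro C
        unfold ps
        rw [Finset.sum_filter]
        rfl
      refine mem_iUnion.2 ⟨((Finset.range N).filter (· ∈ A), (Finset.range N).filter (· ∈ B)), ?_⟩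
      have h8 : t + (∑ n ∈ (Finset.range N).filter (· ∈ B), x n -
          ∑ n ∈ (Finset.range N).filter (· ∈ A), x n) = t - ps x A N + ps x B N := by
        rw [h7, h7]
        ring
      simp only [mem_preimage]
      rw [h8]
      exact ⟨hN, glue B A N, glue_mem hI hA B N, sumsTo_glue ht B N⟩
    refine IsMeagre.mono h4 (isMeagre_iUnion fun p => ?_)
    exact h1.preimage_of_isOpenMap (continuous_add_const _) (isOpenMap_add_right _)
  have h9 : IsMeagre J' := by
    refine (h3.union h2).mono ?_
    intro r hr
    by_cases h : r ∈ idealAchievementSet I x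
    · exact Or.inl h
    · exact Or.inr ⟨hr, h⟩
  exact not_isMeagre_of_isOpen hJo' hJn' h9

/-! ### the conditionally convergent case -/

/-- the greedy partial sums -/
noncomputable def greedy (x : ℕ → ℝ) (t : ℝ) : ℕ → ℝ
  | 0 => 0
  | n + 1 => greedy x t n + if greedy x t n ≤ t then max (x n) 0 else min (x n) 0

theorem univ_of_not_summable (hx : ∃ s, Tendsto (fun N => ∑ n ∈ Finset.range N, x n) atTop (𝓝 s))
    (hns : ¬ Summable (fun n => |x n|)) (t : ℝ) : t ∈ achievementSet x := by
  classical
  obtain ⟨s0, hs0⟩ := hx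
  have habs : Tendsto (fun N => ∑ n ∈ Finset.range N, |x n|) atTop atTop :=
    (not_summable_iff_tendsto_nat_atTop_of_nonneg (fun n => abs_nonneg _)).1 hns
  have hpos : Tendsto (fun N => ∑ n ∈ Finset.range N, max (x n) 0) atTop atTop := by
    have h1 : ∀ N, ∑ n ∈ Finset.range N, max (x n) 0 =
        (1 / 2 : ℝ) * (∑ n ∈ Finset.range N, |x n| + ∑ n ∈ Finset.range N, x n) := by
      intro N
      rw [← Finset.sum_add_distrib, Finset.mul_sum]
      refine Finset.sum_congr rfl fun n _ => ?_
      rcases le_total 0 (x n) with h | h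
      · rw [max_eq_left h, abs_of_nonneg h]; ring
      · rw [max_eq_right h, abs_of_nonpos h]; ring
    simp_rw [h1]
    exact (habs.atTop_add hs0).const_mul_atTop (by norm_num)
  have hneg : Tendsto (fun N => ∑ n ∈ Finset.range N, min (x n) 0) atTop atBot := by
    have h1 : ∀ N, ∑ n ∈ Finset.range N, min (x n) 0 =
        -((1 / 2 : ℝ) * (∑ n ∈ Finset.range N, |x n| + -∑ n ∈ Finset.range N, x n)) := by
      intro N
      rw [← Finset.sum_neg_distrib, ← Finset.sum_add_distrib, Finset.mul_sum,
        ← Finset.sum_neg_distrib]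
      refine Finset.sum_congr rfl fun n _ => ?_
      rcases le_total 0 (x n) with h | h
      · rw [min_eq_right h, abs_of_nonneg h]; ring
      · rw [min_eq_left h, abs_of_nonpos h]; ring
    simp_rw [h1]
    exact tendsto_neg_atTop_atBot.comp ((habs.atTop_add hs0.neg).const_mul_atTop (by norm_num))
  have hx0 : Tendsto x atTop (𝓝 0) := by
    have h1 := (hs0.comp (tendsto_add_atTop_nat 1)).sub hs0
    rw [sub_self] at h1
    refine h1.congr fun n => ?_
    simp [Finset.sum_range_succ]
  -- the greedy sums
  obtain ⟨st, hst0, hst⟩ : ∃ st : ℕ → ℝ, st 0 = 0 ∧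
      ∀ n, st (n + 1) = st n + if st n ≤ t then max (x n) 0 else min (x n) 0 :=
    ⟨greedy x t, rfl, fun n => rfl⟩
  let A : Set ℕ := {n | (st n ≤ t ∧ 0 < x n) ∨ (t < st n ∧ x n < 0)}
  have hA : ∀ N, ∑ n ∈ Finset.range N, A.indicator x n = st N := by
    intro N
    induction N with
    | zero => simp [hst0]
    | succ N ih =>
      rw [Finset.sum_range_succ, ih, hst]
      congr 1
      by_cases h : st N ≤ t
      · rw [if_pos h]
        by_cases h2 : 0 < x N
        · rw [indicator_of_mem (show N ∈ A from Or.inl ⟨h, h2⟩), max_eq_left h2.le]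
        · rw [indicator_of_notMem, max_eq_right (not_lt.1 h2)]
          rintro (h3 | h3)
          · exact h2 h3.2
          · exact absurd h3.1 (not_lt.2 h)
      · rw [if_neg h]
        by_cases h2 : x N < 0
        · rw [indicator_of_mem (show N ∈ A from Or.inr ⟨not_le.1 h, h2⟩), min_eq_left h2.le]
        · rw [indicator_of_notMem, min_eq_right (not_lt.1 h2)]
          rintro (h3 | h3)
          · exact h h3.1
          · exact h2 h3.2
  refine ⟨A, ?_⟩
  unfold SumsTo
  simp_rw [hA]
  rw [Metric.tendsto_atTop]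
  intro ε hε
  obtain ⟨N0, hN0⟩ := (Metric.tendsto_atTop.1 hx0) (ε / 2) (by linarith)
  have hsmall : ∀ n, N0 ≤ n → |x n| < ε / 2 := fun n hn => by
    have := hN0 n hn
    rwa [Real.dist_eq, sub_zero] at this
  have hstep : ∀ n, N0 ≤ n → |st n - t| ≤ ε / 2 → |st (n + 1) - t| ≤ ε / 2 := by
    intro n hn h
    have h1 := abs_lt.1 (hsmall n hn)
    rw [hst]
    rw [abs_le] at h ⊢
    by_cases h2 : st n ≤ t
    · rw [if_pos h2]
      have h3 : 0 ≤ max (x n) 0 := le_max_right _ _
      have h4 : max (x n) 0 ≤ ε / 2 := max_le h1.2.le (by linarith)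
      constructor <;> linarith [h.1, h.2]
    · rw [if_neg h2]
      have h3 : min (x n) 0 ≤ 0 := min_le_right _ _
      have h4 : -(ε / 2) ≤ min (x n) 0 := le_min h1.1.le (by linarith)
      constructor <;> linarith [h.1, h.2, not_le.1 h2]
  have hex : ∃ n, N0 ≤ n ∧ |st n - t| ≤ ε / 2 := by
    by_contra hcon
    push Not at hcon
    rcases le_total (st N0) t with h0 | h0
    · have hlow : ∀ n, N0 ≤ n → st n < t - ε / 2 ∧
          st n = st N0 + (∑ k ∈ Finset.range n, max (x k) 0 -
            ∑ k ∈ Finset.range N0, max (x k) 0) := by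
        intro n hn
        induction n, hn using Nat.le_induction with
        | base =>
          refine ⟨?_, by ring⟩
          have h1 := hcon N0 le_rfl
          rw [abs_of_nonpos (by linarith)] at h1
          linarith
        | succ n hn ih =>
          have h2 := abs_lt.1 (hsmall n hn)
          have h4 : max (x n) 0 ≤ ε / 2 := max_le h2.2.le (by linarith)
          have h5 : st (n + 1) = st n + max (x n) 0 := by
            rw [hst, if_pos (by linarith [ih.1])]
          have h1 := hcon (n + 1) (by omega)
          have h6 : st (n + 1) ≤ t := by linarith [ih.1]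
          rw [abs_of_nonpos (by linarith)] at h1
          refine ⟨by linarith, ?_⟩
          rw [h5, Finset.sum_range_succ, ih.2]
          ring
      obtain ⟨n, hn1, hn2⟩ := ((hpos.eventually_ge_atTop
        (t + |st N0| + ∑ k ∈ Finset.range N0, max (x k) 0)).and (eventually_ge_atTop N0)).exists
      have h7 := hlow n hn2
      have h8 := neg_abs_le (st N0)
      linarith [h7.1, h7.2]
    · have hlow : ∀ n, N0 ≤ n → t + ε / 2 < st n ∧
          st n = st N0 + (∑ k ∈ Finset.range n, min (x k) 0 -
            ∑ k ∈ Finset.range N0, min (x k) 0) := by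
        intro n hn
        induction n, hn using Nat.le_induction with
        | base =>
          refine ⟨?_, by ring⟩
          have h1 := hcon N0 le_rfl
          rw [abs_of_nonneg (by linarith)] at h1
          linarith
        | succ n hn ih =>
          have h2 := abs_lt.1 (hsmall n hn)
          have h4 : -(ε / 2) ≤ min (x n) 0 := le_min h2.1.le (by linarith)
          have h5 : st (n + 1) = st n + min (x n) 0 := by
            rw [hst, if_neg (by linarith [ih.1])]
          have h1 := hcon (n + 1) (by omega)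
          have h6 : t ≤ st (n + 1) := by linarith [ih.1]
          rw [abs_of_nonneg (by linarith)] at h1
          refine ⟨by linarith, ?_⟩
          rw [h5, Finset.sum_range_succ, ih.2]
          ring
      obtain ⟨n, hn1, hn2⟩ := ((hneg.eventually_le_atBot
        (t - |st N0| + ∑ k ∈ Finset.range N0, min (x k) 0)).and (eventually_ge_atTop N0)).exists
      have h7 := hlow n hn2
      have h8 := le_abs_self (st N0)
      linarith [h7.1, h7.2]
  obtain ⟨n1, hn1, hn1'⟩ := hex
  refine ⟨n1, fun n hn => ?_⟩
  have h9 : |st n - t| ≤ ε / 2 := by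
    induction n, hn using Nat.le_induction with
    | base => exact hn1'
    | succ n hn ih => exact hstep n (by omega) ih
  rw [Real.dist_eq]
  linarith

/-! ### the absolutely convergent case -/

theorem sumsTo_iff (hs : Summable fun n => |x n|) {A : Set ℕ} {t : ℝ} :
    SumsTo x A t ↔ HasSum (A.indicator x) t :=
  ((hs.of_abs.indicator A).hasSum_iff_tendsto_nat).symm

theorem isCompact_achievementSet (hs : Summable fun n => |x n|) :
    IsCompact (achievementSet x) := by
  classical
  let Φ : (ℕ → Bool) → ℝ := fun a => ∑' n, if a n then x n else 0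
  have hΦ : Continuous Φ := by
    refine continuous_tsum (u := fun n => |x n|) ?_ hs ?_
    · intro n
      exact (continuous_of_discreteTopology (f := fun b : Bool => if b then x n else 0)).comp
        (continuous_apply n)
    · intro n a
      by_cases h : a n <;> simp [h]
  have h1 : achievementSet x = range Φ := by
    ext t
    constructor
    · rintro ⟨A, hA⟩
      refine ⟨fun n => decide (n ∈ A), ?_⟩
      have h2 := ((sumsTo_iff hs).1 hA).tsum_eq
      rw [← h2]
      refine tsum_congr fun n => ?_
      by_cases h : n ∈ A <;> simp [h]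
    · rintro ⟨a, rfl⟩
      refine ⟨{n | a n = true}, (sumsTo_iff hs).2 ?_⟩
      have h2 : Φ a = ∑' n, {n | a n = true}.indicator x n := by
        refine tsum_congr fun n => ?_
        by_cases h : a n = true
        · rw [if_pos h, indicator_of_mem (show n ∈ {n | a n = true} from h)]
        · rw [if_neg h, indicator_of_notMem (show n ∉ {n | a n = true} from h)]
      rw [h2]
      exact (hs.of_abs.indicator _).hasSum
  rw [h1]
  exact isCompact_range hΦ

/-- the tail of the series of absolute values -/
noncomputable def tailR (x : ℕ → ℝ) (N : ℕ) : ℝ := ∑' k, |x (k + N)|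

/-- the tail of the series of negative parts -/
noncomputable def tailM (x : ℕ → ℝ) (N : ℕ) : ℝ := ∑' k, min (x (k + N)) 0

theorem summable_min (hs : Summable fun n => |x n|) : Summable fun n => min (x n) 0 := by
  refine Summable.of_norm_bounded hs fun n => ?_
  rw [Real.norm_eq_abs]
  rcases le_total 0 (x n) with h | h
  · rw [min_eq_right h, abs_zero]
    exact abs_nonneg _
  · rw [min_eq_left h]

theorem tail_eq (hs : Summable fun n => |x n|) {A : Set ℕ} {t : ℝ} (h : SumsTo x A t) (N : ℕ) :
    t - ps x A N = ∑' k, A.indicator x (k + N) := by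
  have h1 := (hs.of_abs.indicator A).sum_add_tsum_nat_add N
  rw [((sumsTo_iff hs).1 h).tsum_eq] at h1
  unfold ps
  linarith

theorem le_tail (hs : Summable fun n => |x n|) {A : Set ℕ} {t : ℝ} (h : SumsTo x A t) (N : ℕ) :
    tailM x N ≤ t - ps x A N := by
  rw [tail_eq hs h N]
  unfold tailM
  refine Summable.tsum_le_tsum (fun k => ?_) ((summable_nat_add_iff N).2 (summable_min hs))
    ((summable_nat_add_iff N).2 (hs.of_abs.indicator A))
  by_cases hk : k + N ∈ A
  · rw [indicator_of_mem hk]
    exact min_le_left _ _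
  · rw [indicator_of_notMem hk]
    exact min_le_right _ _

theorem tail_le (hs : Summable fun n => |x n|) {A : Set ℕ} {t : ℝ} (h : SumsTo x A t) (N : ℕ) :
    t - ps x A N ≤ tailM x N + tailR x N := by
  rw [tail_eq hs h N]
  unfold tailM tailR
  rw [← Summable.tsum_add ((summable_nat_add_iff N).2 (summable_min hs))
    ((summable_nat_add_iff N).2 hs)]
  refine Summable.tsum_le_tsum (fun k => ?_) ((summable_nat_add_iff N).2 (hs.of_abs.indicator A))
    (((summable_nat_add_iff N).2 (summable_min hs)).add ((summable_nat_add_iff N).2 hs))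
  have h1 : A.indicator x (k + N) ≤ max (x (k + N)) 0 := by
    by_cases hk : k + N ∈ A
    · rw [indicator_of_mem hk]
      exact le_max_left _ _
    · rw [indicator_of_notMem hk]
      exact le_max_right _ _
  refine h1.trans ?_
  rcases le_total 0 (x (k + N)) with h | h
  · rw [min_eq_right h, abs_of_nonneg h, max_eq_left h]; linarith
  · rw [min_eq_left h, abs_of_nonpos h, max_eq_right h]; linarith

theorem tendsto_tailR : Tendsto (tailR x) atTop (𝓝 0) :=
  tendsto_sum_nat_add fun n => |x n|

/-- `f + tailM x N` belongs to the achievement set for each finite partial sum `f` -/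
theorem ps_add_mem (hs : Summable fun n => |x n|) (D : Set ℕ) (N : ℕ) :
    ps x D N + tailM x N ∈ achievementSet x := by
  have h1 : ∀ n, {n | x n < 0}.indicator x n = min (x n) 0 := by
    intro n
    by_cases h : x n < 0
    · rw [indicator_of_mem (show n ∈ {n | x n < 0} from h), min_eq_left h.le]
    · rw [indicator_of_notMem (show n ∉ {n | x n < 0} from h), min_eq_right (not_lt.1 h)]
  have h2 : SumsTo x {n | x n < 0} (∑' n, min (x n) 0) := by
    rw [sumsTo_iff hs]
    have h3 : {n | x n < 0}.indicator x = fun n => min (x n) 0 := funext h1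
    rw [h3]
    exact (summable_min hs).hasSum
  have h4 := sumsTo_glue h2 D N
  have h5 := tail_eq hs h2 N
  simp_rw [h1] at h5
  refine ⟨glue D {n | x n < 0} N, ?_⟩
  convert h4 using 1
  rw [h5]
  unfold tailM
  ring

theorem ps_finite (N : ℕ) : (range fun D : Set ℕ => ps x D N).Finite := by
  classical
  refine ((Finset.range N).powerset.finite_toSet.image fun F => ∑ n ∈ F, x n).subset ?_
  rintro _ ⟨D, rfl⟩
  refine ⟨(Finset.range N).filter (· ∈ D), ?_, ?_⟩
  · rw [Finset.mem_coe, Finset.mem_powerset]
    exact Finset.filter_subset _ _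
  · simp only [ps]
    rw [Finset.sum_filter]
    rfl

theorem gap_lemma (hs : Summable fun n => |x n|) {g e : ℝ}
    (hgap : ∀ r, g - e < r → r < g → r ∉ achievementSet x) {N : ℕ} (hN : tailR x N < e) :
    ∃ a > 0, ∀ (D : Set ℕ) (k : ℝ), SumsTo x D k → g ≤ k → k < g + a →
      ps x D N = g - tailM x N := by
  let T : Set ℝ := ((fun f => f + tailM x N) '' (range fun D : Set ℕ => ps x D N)) \ {g}
  have hT : T.Finite := ((ps_finite N).image _).subset sdiff_subset
  have hgT : g ∉ T := fun h => h.2 rfl
  obtain ⟨a, ha, hball⟩ := Metric.mem_nhds_iff.1 (hT.isClosed.isOpen_compl.mem_nhds hgT)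
  refine ⟨a, ha, fun D k hD hk1 hk2 => ?_⟩
  by_contra hne
  have h1 : ps x D N + tailM x N ∈ T := by
    refine ⟨⟨_, ⟨D, rfl⟩, rfl⟩, ?_⟩
    intro h
    apply hne
    have h' : ps x D N + tailM x N = g := h
    linarith
  have h2 : ps x D N + tailM x N ∉ Metric.ball g a := fun h => hball h h1
  rw [Metric.mem_ball, Real.dist_eq, not_lt] at h2
  have h3 := le_tail hs hD N
  have h4 := tail_le hs hD N
  have h5 : ps x D N + tailM x N < g := by
    by_contra h6
    rw [abs_of_nonneg (by linarith)] at h2
    linarith
  have h7 : ps x D N + tailM x N ≤ g - e := by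
    by_contra h8
    exact hgap _ (not_le.1 h8) h5 (ps_add_mem hs D N)
  linarith

theorem exists_gap (hs : Summable fun n => |x n|) (hint : interior (achievementSet x) = ∅)
    {V : Set (achievementSet x)} (hV : IsOpen V) (hVn : V.Nonempty) :
    ∃ g : achievementSet x, g ∈ V ∧ ∃ e > 0, ∀ r, (g : ℝ) - e < r → r < g →
      r ∉ achievementSet x := by
  obtain ⟨O, hO, rfl⟩ := isOpen_induced_iff.1 hV
  obtain ⟨v, hv⟩ := hVn
  obtain ⟨d, hd, hball⟩ := Metric.mem_nhds_iff.1 (hO.mem_nhds hv)
  obtain ⟨t, ht1, ht2, ht3⟩ : ∃ t : ℝ, v - d < t ∧ t < v ∧ t ∉ achievementSet x := by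
    by_contra hcon
    push Not at hcon
    have h1 : Ioo ((v : ℝ) - d) v ⊆ interior (achievementSet x) :=
      interior_maximal (fun t ht => hcon t ht.1 ht.2) isOpen_Ioo
    rw [hint] at h1
    have h2 : ((v : ℝ) - d + v) / 2 ∈ Ioo ((v : ℝ) - d) v := by
      constructor <;> linarith
    exact h1 h2
  have hK := isCompact_achievementSet hs
  have hS : IsClosed (achievementSet x ∩ Ici t) := hK.isClosed.inter isClosed_Ici
  have hSn : (achievementSet x ∩ Ici t).Nonempty := ⟨v, v.2, ht2.le⟩
  have hSb : BddBelow (achievementSet x ∩ Ici t) := ⟨t, fun r hr => hr.2⟩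
  have hg := hS.csInf_mem hSn hSb
  set g := sInf (achievementSet x ∩ Ici t) with hgdef
  have hgv : g ≤ v := csInf_le hSb ⟨v.2, ht2.le⟩
  have hgt : t < g := by
    rcases lt_or_eq_of_le (show t ≤ g from hg.2) with h | h
    · exact h
    · exact absurd (h ▸ hg.1) ht3
  refine ⟨⟨g, hg.1⟩, ?_, g - t, by linarith, ?_⟩
  · apply hball
    rw [Metric.mem_ball, Real.dist_eq, abs_lt]
    simp only
    constructor <;> linarith
  · intro r hr1 hr2 hr3
    simp only at hr1 hr2
    have h1 : g ≤ r := csInf_le hSb ⟨hr3, (by simp only [mem_Ici]; linarith : r ∈ Ici t)⟩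
    linarith

theorem transfer {g g' m k : ℝ} {N : ℕ} {D D' : Set ℕ} (hD' : ps x D' N = g' - m)
    (hk : SumsTo x D k) (hD : ps x D N = g - m) : SumsTo x (glue D' D N) (k + (g' - g)) := by
  have h := sumsTo_glue hk D' N
  rw [hD, hD'] at h
  convert h using 1
  ring

/-- Case 2: the achievement set is compact without interior points. -/
theorem case_thin (hI : IsIdeal I) (hs : Summable fun n => |x n|)
    (hint : interior (achievementSet x) = ∅)
    {U V : Set (achievementSet x)} (hU : IsOpen U) (hUn : U.Nonempty) (hV : IsOpen V)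
    (hVn : V.Nonempty)
    (hUG : IsMeagre (U \ {k : achievementSet x | (k : ℝ) ∈ idealAchievementSet I x}))
    (hVG : IsMeagre (V ∩ {k : achievementSet x | (k : ℝ) ∈ idealAchievementSet I x})) :
    False := by
  obtain ⟨g, hgU, e, he, hgap⟩ := exists_gap hs hint hU hUn
  obtain ⟨g', hgV, e', he', hgap'⟩ := exists_gap hs hint hV hVn
  obtain ⟨N, hN⟩ := (tendsto_tailR.eventually_lt_const (lt_min he he')).exists
  obtain ⟨a, ha, hgl⟩ := gap_lemma hs hgap (hN.trans_le (min_le_left _ _))
  obtain ⟨a', ha', hgl'⟩ := gap_lemma hs hgap' (hN.trans_le (min_le_right _ _))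
  obtain ⟨O, hO, rfl⟩ := isOpen_induced_iff.1 hU
  obtain ⟨O', hO', rfl⟩ := isOpen_induced_iff.1 hV
  obtain ⟨d, hd, hball⟩ := Metric.mem_nhds_iff.1 (hO.mem_nhds hgU)
  obtain ⟨d', hd', hball'⟩ := Metric.mem_nhds_iff.1 (hO'.mem_nhds hgV)
  obtain ⟨D0, hD0⟩ := g.2
  obtain ⟨D0', hD0'⟩ := g'.2
  have hp := hgl D0 g hD0 le_rfl (by linarith)
  have hp' := hgl' D0' g' hD0' le_rfl (by linarith)
  set ε := min (min a a') (min d d') with hεdef
  have hε : 0 < ε := lt_min (lt_min ha ha') (lt_min hd hd')
  have hεa : ε ≤ a := (min_le_left _ _).trans (min_le_left _ _)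
  have hεa' : ε ≤ a' := (min_le_left _ _).trans (min_le_right _ _)
  have hεd : ε ≤ d := (min_le_right _ _).trans (min_le_left _ _)
  have hεd' : ε ≤ d' := (min_le_right _ _).trans (min_le_right _ _)
  -- the two local translations
  have htr : ∀ (k : ℝ), (g : ℝ) ≤ k → k < g + ε → ∀ D, SumsTo x D k →
      SumsTo x (glue D0' D N) (k + ((g' : ℝ) - g)) := fun k hk1 hk2 D hD =>
    transfer hp' hD (hgl D k hD hk1 (by linarith))
  have htr' : ∀ (k : ℝ), (g' : ℝ) ≤ k → k < g' + ε → ∀ D, SumsTo x D k →
      SumsTo x (glue D0 D N) (k + ((g : ℝ) - g')) := fun k hk1 hk2 D hD =>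
    transfer hp hD (hgl' D k hD hk1 (by linarith))
  let P : Set (achievementSet x) := {k | (g : ℝ) - e < k ∧ (k : ℝ) < g + ε}
  have hPo : IsOpen P := (isOpen_lt continuous_const continuous_subtype_val).inter
    (isOpen_lt continuous_subtype_val continuous_const)
  have hPn : P.Nonempty := ⟨g, by
    refine ⟨?_, ?_⟩ <;> linarith⟩
  have hPge : ∀ k ∈ P, (g : ℝ) ≤ k := by
    intro k hk
    by_contra h
    exact hgap k hk.1 (not_le.1 h) k.2
  have hPK : ∀ k : P, (k : ℝ) + ((g' : ℝ) - g) ∈ achievementSet x := by
    intro k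
    obtain ⟨D, hD⟩ := k.1.2
    exact ⟨_, htr _ (hPge _ k.2) k.2.2 D hD⟩
  let f : P → achievementSet x := fun k => ⟨(k : ℝ) + ((g' : ℝ) - g), hPK k⟩
  have hf : Continuous f := by
    refine Continuous.subtype_mk ?_ _
    exact (continuous_subtype_val.comp continuous_subtype_val).add continuous_const
  have hfo : IsOpenMap f := by
    intro W hW
    obtain ⟨W1, hW1, rfl⟩ := isOpen_induced_iff.1 hW
    obtain ⟨W2, hW2, rfl⟩ := isOpen_induced_iff.1 hW1
    refine isOpen_induced_iff.2 ⟨{r | r - ((g' : ℝ) - g) ∈ W2} ∩ {r | (g' : ℝ) - e' < r} ∩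
      {r | r < (g' : ℝ) + ε} ∩ {r | (g' : ℝ) - e < r}, ?_, ?_⟩
    · refine (((hW2.preimage (continuous_id.sub continuous_const)).inter
        (isOpen_lt continuous_const continuous_id)).inter
          (isOpen_lt continuous_id continuous_const)).inter
            (isOpen_lt continuous_const continuous_id)
    · ext k
      constructor
      · rintro ⟨⟨⟨h1, h2⟩, h3⟩, h4⟩
        simp only [mem_ofPred_eq] at h1 h2 h3 h4
        have h5 : (g' : ℝ) ≤ k := by
          by_contra h
          exact hgap' k h2 (not_le.1 h) k.2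
        obtain ⟨D, hD⟩ := k.2
        have h6 := htr' k h5 h3 D hD
        refine ⟨⟨⟨(k : ℝ) + ((g : ℝ) - g'), ⟨_, h6⟩⟩, ?_, ?_⟩, ?_, ?_⟩
        · simp only
          linarith
        · simp only
          linarith
        · have h7 : (k : ℝ) + ((g : ℝ) - g') = k - ((g' : ℝ) - g) := by ring
          simp only [mem_preimage]
          rw [h7]
          exact h1
        · apply Subtype.ext
          simp only [f]
          ring
      · rintro ⟨⟨r, hr⟩, hrW, rfl⟩
        have h1 := hPge r hr
        have h2 := hr.2
        simp only [mem_preimage] at hrW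
        refine ⟨⟨⟨?_, ?_⟩, ?_⟩, ?_⟩
        · simp only [mem_ofPred_eq, f]
          convert hrW using 1
          ring
        · simp only [mem_ofPred_eq, f]
          linarith
        · simp only [mem_ofPred_eq, f]
          linarith
        · simp only [mem_ofPred_eq, f]
          linarith
  have h1 := (hVG.preimage_of_isOpenMap hf hfo).image_val
  have : CompactSpace (achievementSet x) :=
    isCompact_iff_compactSpace.1 (isCompact_achievementSet hs)
  refine not_isMeagre_of_isOpen hPo hPn ((hUG.union h1).mono ?_)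
  intro k hk
  by_cases h : (k : ℝ) ∈ idealAchievementSet I x
  · right
    refine ⟨⟨k, hk⟩, ⟨?_, ?_⟩, rfl⟩
    · apply hball'
      rw [Metric.mem_ball, Real.dist_eq, abs_lt]
      simp only [f]
      constructor <;> linarith [hPge k hk, hk.2]
    · obtain ⟨D, hDI, hD⟩ := h
      exact ⟨_, glue_mem hI hDI _ _, htr _ (hPge _ hk) hk.2 D hD⟩
  · left
    refine ⟨?_, h⟩
    apply hball
    rw [Metric.mem_ball, Real.dist_eq, abs_lt]
    constructor <;> linarith [hPge k hk, hk.2]

/-- the achievement set of the shifted sequence, translated, is contained in the achievement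
set -/
theorem shift_mem {N : ℕ} {s : ℝ} (h : s ∈ achievementSet fun n => x (n + N)) (B : Set ℕ) :
    ps x B N + s ∈ achievementSet x := by
  classical
  obtain ⟨A, hA⟩ := h
  let A' : Set ℕ := {n | N ≤ n ∧ n - N ∈ A}
  have h0 : ∀ M, ps x A' (M + N) = ∑ n ∈ Finset.range M, A.indicator (fun n => x (n + N)) n := by
    intro M
    induction M with
    | zero =>
      unfold ps
      rw [zero_add, Finset.range_zero, Finset.sum_empty]
      refine Finset.sum_eq_zero fun n hn => indicator_of_notMem ?_ _
      have := Finset.mem_range.1 hn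
      rintro ⟨h1, -⟩
      omega
    | succ M ih =>
      have h1 : ps x A' (M + 1 + N) = ps x A' (M + N) + A'.indicator x (M + N) := by
        unfold ps
        rw [show M + 1 + N = M + N + 1 by ring, Finset.sum_range_succ]
      rw [h1, ih, Finset.sum_range_succ]
      congr 1
      by_cases h : M ∈ A
      · rw [indicator_of_mem h, indicator_of_mem]
        exact ⟨by omega, by simpa using h⟩
      · rw [indicator_of_notMem h, indicator_of_notMem]
        rintro ⟨-, h2⟩
        exact h (by simpa using h2)
  have h1 : SumsTo x A' s := by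
    have h2 : Tendsto (fun M => ps x A' (M + N)) atTop (𝓝 s) := by
      simp_rw [h0]
      exact hA
    exact (tendsto_add_atTop_iff_nat N).1 h2
  have h3 := sumsTo_glue h1 B N
  have h4 : ps x A' N = 0 := by
    have := h0 0
    simpa using this
  rw [h4] at h3
  exact ⟨_, by convert h3 using 1; ring⟩

theorem mem_shift (hs : Summable fun n => |x n|) {B : Set ℕ} {t : ℝ} (h : SumsTo x B t) (N : ℕ) :
    t - ps x B N ∈ achievementSet fun n => x (n + N) := by
  refine ⟨{n | n + N ∈ B}, ?_⟩
  have hs' : Summable fun n => |x (n + N)| := (summable_nat_add_iff N).2 hs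
  rw [sumsTo_iff (x := fun n => x (n + N)) hs', tail_eq hs h N]
  have h1 : {n | n + N ∈ B}.indicator (fun n => x (n + N)) = fun k => B.indicator x (k + N) := by
    funext n
    by_cases hn : n + N ∈ B
    · rw [indicator_of_mem hn, indicator_of_mem (show n ∈ {n | n + N ∈ B} from hn)]
    · rw [indicator_of_notMem hn, indicator_of_notMem (show n ∉ {n | n + N ∈ B} from hn)]
  rw [h1]
  exact ((summable_nat_add_iff N).2 (hs.of_abs.indicator B)).hasSum

theorem fat_of_interior (hs : Summable fun n => |x n|)
    (hint : (interior (achievementSet x)).Nonempty) {V : Set (achievementSet x)}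
    (hV : IsOpen V) (hVn : V.Nonempty) :
    ∃ J : Set ℝ, IsOpen J ∧ J.Nonempty ∧ ∃ hJ : J ⊆ achievementSet x,
        ∀ r (hr : r ∈ J), (⟨r, hJ hr⟩ : achievementSet x) ∈ V := by
  obtain ⟨O, hO, rfl⟩ := isOpen_induced_iff.1 hV
  obtain ⟨v, hv⟩ := hVn
  obtain ⟨d, hd, hball⟩ := Metric.mem_nhds_iff.1 (hO.mem_nhds hv)
  obtain ⟨B, hB⟩ := v.2
  obtain ⟨N, hN⟩ := (tendsto_tailR.eventually_lt_const hd).exists
  have hs' : Summable fun n => |x (n + N)| := (summable_nat_add_iff N).2 hs
  -- the tail achievement set has an interior point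
  have hKN : (interior (achievementSet fun n => x (n + N))).Nonempty := by
    by_contra hcon
    rw [not_nonempty_iff_eq_empty] at hcon
    have h1 : achievementSet x ⊆ ⋃ f ∈ (range fun D : Set ℕ => ps x D N),
        (fun t : ℝ => t + -f) ⁻¹' (achievementSet fun n => x (n + N)) := by
      rintro t ⟨D, hD⟩
      refine mem_iUnion₂.2 ⟨_, ⟨D, rfl⟩, ?_⟩
      simp only [mem_preimage]
      rw [← sub_eq_add_neg]
      exact mem_shift hs hD N
    have h2 : IsMeagre (achievementSet fun n => x (n + N)) := by
      apply IsNowhereDense.isMeagre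
      rw [IsNowhereDense, (isCompact_achievementSet hs').isClosed.closure_eq]
      exact hcon
    have h3 : IsMeagre (achievementSet x) := by
      refine IsMeagre.mono h1 ?_
      have hc : (range fun D : Set ℕ => ps x D N).Countable := (ps_finite N).countable
      have := hc.to_subtype
      rw [biUnion_eq_iUnion]
      refine isMeagre_iUnion fun f => ?_
      exact h2.preimage_of_isOpenMap (continuous_add_const _) (isOpenMap_add_right _)
    exact not_isMeagre_of_isOpen isOpen_interior hint (h3.mono interior_subset)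
  refine ⟨(fun t : ℝ => t + -(ps x B N)) ⁻¹' (interior (achievementSet fun n => x (n + N))),
    isOpen_interior.preimage (continuous_add_const _), ?_, ?_, ?_⟩
  · obtain ⟨s, hs1⟩ := hKN
    exact ⟨s + ps x B N, by simpa using hs1⟩
  · intro t ht
    have h1 := shift_mem (interior_subset ht) B
    simpa using h1
  · intro r hr
    apply hball
    obtain ⟨A, hA⟩ := interior_subset hr
    rw [sumsTo_iff (x := fun n => x (n + N)) hs'] at hA
    simp only at hA
    have h1 : |r + -(ps x B N) - (v - ps x B N)| ≤ tailR x N := by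
      rw [tail_eq hs hB N, ← hA.tsum_eq, ← Summable.tsum_sub (hs'.of_abs.indicator A)
        ((summable_nat_add_iff N).2 (hs.of_abs.indicator B))]
      unfold tailR
      have h2 : ∀ k, |A.indicator (fun n => x (n + N)) k - B.indicator x (k + N)| ≤
          |x (k + N)| := by
        intro k
        by_cases h3 : k ∈ A <;> by_cases h4 : k + N ∈ B
        · rw [indicator_of_mem h3, indicator_of_mem h4, sub_self, abs_zero]
          exact abs_nonneg _
        · rw [indicator_of_mem h3, indicator_of_notMem h4, sub_zero]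
        · rw [indicator_of_notMem h3, indicator_of_mem h4, zero_sub, abs_neg]
        · rw [indicator_of_notMem h3, indicator_of_notMem h4, sub_zero, abs_zero]
          exact abs_nonneg _
      have h5 : Summable fun k => |A.indicator (fun n => x (n + N)) k - B.indicator x (k + N)| :=
        Summable.of_nonneg_of_le (fun _ => abs_nonneg _) h2 hs'
      calc |∑' k, (A.indicator (fun n => x (n + N)) k - B.indicator x (k + N))|
          ≤ ∑' k, |A.indicator (fun n => x (n + N)) k - B.indicator x (k + N)| := by
            have := norm_tsum_le_tsum_norm (f := fun k => A.indicator (fun n => x (n + N)) k -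
              B.indicator x (k + N)) (by simpa only [Real.norm_eq_abs] using h5)
            simpa only [Real.norm_eq_abs] using this
        _ ≤ ∑' k, |x (k + N)| := Summable.tsum_le_tsum h2 h5 hs'
    rw [Metric.mem_ball, Real.dist_eq]
    calc |r - (v : ℝ)| = |r + -(ps x B N) - (v - ps x B N)| := by congr 1; ring
      _ ≤ tailR x N := h1
      _ < d := hN

theorem main_step (hx : ∃ s, Tendsto (fun N => ∑ n ∈ Finset.range N, x n) atTop (𝓝 s))
    (hI : IsIdeal I)
    {U V : Set (achievementSet x)} (hU : IsOpen U) (hUn : U.Nonempty) (hV : IsOpen V)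
    (hVn : V.Nonempty)
    (hUG : IsMeagre (U \ {k : achievementSet x | (k : ℝ) ∈ idealAchievementSet I x}))
    (hVG : IsMeagre (V ∩ {k : achievementSet x | (k : ℝ) ∈ idealAchievementSet I x})) :
    False := by
  by_cases hs : Summable fun n => |x n|
  · rcases (interior (achievementSet x)).eq_empty_or_nonempty with h | h
    · exact case_thin hI hs h hU hUn hV hVn hUG hVG
    · exact case_fat hI (fun W hW hWn => fat_of_interior hs h hW hWn) hU hUn hV hVn hUG hVG
  · refine case_fat hI (fun W hW hWn => ?_) hU hUn hV hVn hUG hVG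
    obtain ⟨O, hO, rfl⟩ := isOpen_induced_iff.1 hW
    obtain ⟨w, hw⟩ := hWn
    exact ⟨O, hO, ⟨w, hw⟩, fun t _ => univ_of_not_summable hx hs t, fun r hr => hr⟩

/-- **Theorem.** Let `x` be a real sequence whose sum converges and `I` an ideal of subsets of `ℕ`
containing all finite sets. If the ideal achievement set `A_I(x)` has the Baire property in the
achievement set `A(x)`, then it is meager or comeager in `A(x)`. -/
theorem result (I : Set (Set ℕ)) (hI : IsIdeal I) (x : ℕ → ℝ)
    (hx : ∃ s, Tendsto (fun N => ∑ n ∈ Finset.range N, x n) atTop (𝓝 s))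
    (hB : HasBaireProperty {k : achievementSet x | (k : ℝ) ∈ idealAchievementSet I x}) :
    IsMeagre {k : achievementSet x | (k : ℝ) ∈ idealAchievementSet I x} ∨
      IsMeagre {k : achievementSet x | (k : ℝ) ∉ idealAchievementSet I x} := by
  obtain ⟨U, hU, hM⟩ := hB
  set G := {k : achievementSet x | (k : ℝ) ∈ idealAchievementSet I x} with hG
  rcases U.eq_empty_or_nonempty with hUe | hUn
  · left
    refine hM.mono ?_
    intro k hk
    exact Or.inl ⟨hk, by simp [hUe]⟩
  rcases (interior Uᶜ).eq_empty_or_nonempty with hVe | hVn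
  · right
    have h1 : IsMeagre Uᶜ := by
      apply IsNowhereDense.isMeagre
      rw [IsNowhereDense, hU.isClosed_compl.closure_eq]
      exact hVe
    refine (hM.union h1).mono ?_
    intro k hk
    by_cases h : k ∈ U
    · exact Or.inl (Or.inr ⟨h, hk⟩)
    · exact Or.inr h
  exfalso
  refine main_step hx hI hU hUn isOpen_interior hVn (hM.mono ?_) (hM.mono ?_)
  · rintro k ⟨h1, h2⟩
    exact Or.inr ⟨h1, h2⟩
  · rintro k ⟨h1, h2⟩
    exact Or.inl ⟨h2, interior_subset h1⟩

end Pool.Agent.Results.MP_dc2775_an.Category
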